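import Pool.Agent.H46.CH.LT

/-!
# The first stage: soundness
-/

set_option autoImplicit false

namespace Pool.Agent.H36.CHS

open Classical Pool.Agent.H46.CH
open Pool.Agent.H8.VR (C2)
open Pool.Agent.H8.JS (NTM Cfg Mv IsComp lang num)

/-- `c` is reached from the initial configuration -/
def Rc (M : NTM) (x : List Bool) (c : Cfg M) : Prop :=
  ∃ (l : ℕ) (f : ℕ → Cfg M), IsComp M (Pool.Agent.H8.JS.init M x) l f ∧ f l = c

theorem Rc.refl (M : NTM) (x : List Bool) : Rc M x (Pool.Agent.H8.JS.init M x) :=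
  ⟨0, fun _ => Pool.Agent.H8.JS.init M x, ⟨rfl, fun i hi => absurd hi (Nat.not_lt_zero i)⟩, rfl⟩

theorem Rc.step {M : NTM} {x : List Bool} {c c' : Cfg M} (h : Rc M x c)
    (hs : Pool.Agent.H8.JS.Step M c c') : Rc M x c' := by
  obtain ⟨l, f, ⟨h0, h1⟩, h2⟩ := h
  refine ⟨l + 1, fun i => if i ≤ l then f i else c', ⟨?_, ?_⟩, ?_⟩
  · show (if 0 ≤ l then f 0 else c') = _
    rw [if_pos (Nat.zero_le l)]
    exact h0
  · intro i hi
    show Pool.Agent.H8.JS.Step M (if i ≤ l then f i else c') (if i + 1 ≤ l then f (i + 1) else c')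
    rw [if_pos (by omega : i ≤ l)]
    by_cases h3 : i + 1 ≤ l
    · rw [if_pos h3]
      exact h1 i (by omega)
    · have h4 : i = l := by omega
      rw [if_neg h3, h4, h2]
      exact hs
  · show (if l + 1 ≤ l then f (l + 1) else c') = c'
    rw [if_neg (by omega)]

theorem Rc.acc {M : NTM} {x : List Bool} {c : Cfg M} (h : Rc M x c) (hq : c.q = M.acc) :
    Pool.Agent.H8.JS.Acc M x := by
  obtain ⟨l, f, h1, h2⟩ := h
  exact ⟨l, f, h1, by rw [h2]; exact hq⟩

/-- the invariant of the first stage -/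
def Inv2 {M : NTM} {d : ℕ} (B : ℕ) (cd : TS M → ℕ) (e : Ins M d) (v : Ct M.k d → ℕ) : Prop :=
  match e with
  | .pop τ => ∃ (x : List Bool) (c : Cfg M), Rc M x c ∧ VC B cd (num x) c v ∧ τ.ok ∧ τ.1 = c.q
  | .push τ => ∃ (x : List Bool) (c : Cfg M) (v₀ : Ct M.k d → ℕ), Rc M x c ∧
      VC B cd (num x) c v₀ ∧ τ.ok ∧ τ.1 = c.q ∧ (tmA M B cd d).Rel (.pop τ) v₀ v
  | .clear => ∃ x : List Bool, Pool.Agent.H8.JS.Acc M x ∧ v .N = num x
  | .pad => ∃ x : List Bool, Pool.Agent.H8.JS.Acc M x ∧ v .N = num x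
  | .begB => ∃ x : List Bool, Pool.Agent.H8.JS.Acc M x ∧ v .N = num x
  | _ => True

theorem inv2_step {M : NTM} {d : ℕ} {B : ℕ} {cd : TS M → ℕ} (hIR : T_IR) (hS2 : T_S2)
    (hLE : T_LE) (hc : Code M B cd) (e₁ e₂ : Ins M d) (v₁ v₂ : Ct M.k d → ℕ) (s : ℕ)
    (hp : (tmA M B cd d).Path .start (fun _ => 0) e₁ v₁ s) (h : Inv2 B cd e₁ v₁)
    (hr : (tmA M B cd d).Rel e₁ v₁ v₂) (hn : Ins.nx e₁ e₂) : Inv2 B cd e₂ v₂ := by
  cases e₁ with
  | start =>
    cases e₂ with
    | load b => exact trivial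
    | endl => exact trivial
    | _ => exact hn.elim
  | load b =>
    cases e₂ with
    | load b' => exact trivial
    | endl => exact trivial
    | _ => exact hn.elim
  | endl =>
    obtain ⟨x, hx⟩ := hLE M B cd d hc v₁ v₂ s hp hr
    cases e₂ with
    | pop τ => exact ⟨x, _, Rc.refl M x, hx, hn.2, hn.1⟩
    | clear => exact ⟨x, (Rc.refl M x).acc hn, hx.2.2.1⟩
    | _ => exact hn.elim
  | pop τ =>
    cases e₂ with
    | push τ' =>
      have hτ : τ = τ' := hn
      subst hτ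
      obtain ⟨x, c, h1, h2, h3, h4⟩ := h
      exact ⟨x, c, v₁, h1, h2, h3, h4, hr⟩
    | _ => exact hn.elim
  | push τ =>
    obtain ⟨x, c, v₀, h1, h2, h3, h4, h5⟩ := h
    obtain ⟨c', hs, hq, hv⟩ := hS2 M B cd d (num x) hc c v₀ v₁ v₂ τ h2 h3 h4 h5 hr
    cases e₂ with
    | pop τ' => exact ⟨x, c', h1.step hs, hv, hn.2, hn.1.trans hq.symm⟩
    | clear => exact ⟨x, (h1.step hs).acc (hq.trans hn), hv.2.2.1⟩
    | _ => exact hn.elim
  | clear =>
    cases e₂ with
    | pad =>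
      obtain ⟨x, h1, h2⟩ := h
      refine ⟨x, h1, ?_⟩
      rw [((hIR M B cd d v₁ v₂).2.2.2.1).1 hr .N, if_pos rfl, h2]
    | _ => exact hn.elim
  | pad =>
    cases e₂ with
    | begB =>
      obtain ⟨x, h1, h2⟩ := h
      refine ⟨x, h1, ?_⟩
      rw [← (((hIR M B cd d v₁ v₂).2.2.2.2.1).1 hr).2 .N (by intro h; cases h), h2]
    | _ => exact hn.elim
  | begB =>
    cases e₂ with
    | ipop i => exact trivial
    | fpop => exact trivial
    | _ => exact hn.elim
  | ipop i =>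
    cases e₂ with
    | ipush i => exact trivial
    | _ => exact hn.elim
  | ipush i =>
    cases e₂ with
    | ipop i => exact trivial
    | fpop => exact trivial
    | _ => exact hn.elim
  | fpop =>
    cases e₂ with
    | fpush => exact trivial
    | _ => exact hn.elim
  | fpush =>
    cases e₂ with
    | _ => exact hn.elim

theorem inv2_path {M : NTM} {d : ℕ} {B : ℕ} {cd : TS M → ℕ} (hIR : T_IR) (hS2 : T_S2)
    (hLE : T_LE) (hc : Code M B cd) (e' : (tmA M B cd d).I) (v' : Ct M.k d → ℕ) (s : ℕ)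
    (h : (tmA M B cd d).Path .start (fun _ => 0) e' v' s) : Inv2 B cd e' v' := by
  induction h with
  | nil => exact trivial
  | snoc e₁ v₁ e₂ v₂ s h hr hnx ih =>
    exact inv2_step hIR hS2 hLE hc e₁ e₂ v₁ v₂ s h ih hr hnx

theorem pf_A2 (hIR : T_IR) (hS2 : T_S2) (hLE : T_LE) : T_A2 := by
  intro M B cd d hc v s h
  exact inv2_path hIR hS2 hLE hc .begB v s h

end Pool.Agent.H36.CHS
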