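import Pool.Agent.H46.CH.AT

/-!
# Subtrees and embeddings
-/

set_option autoImplicit false

namespace Pool.Agent.H36.CHS

open Classical Pool.Agent.H8.VR Pool.Agent.H69.VR Pool.Agent.H46.CH

variable {N Q L T O C : Type} [Fintype T]

theorem ok_sub [Fintype Q] [Fintype L] [Fintype C] (W : Pm N Q L T O C) {t R : Rt N Q L T O C}
    (h : Rt.Sub t R) : W.Ok R → W.Ok t := by
  induction h with
  | refl t => exact id
  | left D o w t t₁ t₂ h ih =>
    intro hR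
    cases hR with
    | join _ _ _ _ _ h₁ => exact ih h₁
  | right D o w t t₁ t₂ h ih =>
    intro hR
    cases hR with
    | join _ _ _ _ _ _ h₂ => exact ih h₂

theorem emb_leaf (W : Pm N Q L T O C) {t R : Rt N Q L T O C} (h : W.Emb t R) :
    ∀ D q l, t = .leaf D q l → ∃ D', Rt.Sub (.leaf D' q l) R ∧ W.dle D D' := by
  induction h with
  | leaf D D' q l h =>
    intro E q' l' he
    cases he
    exact ⟨D', .refl _, h⟩
  | join D D' o w w' t₁ t₂ t₁' t₂' hD hw h₁ h₂ hd₁ hd₂ ih₁ ih₂ =>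
    intro E q' l' he
    cases he
  | left D' o' w' t t₁' t₂' h ih =>
    intro E q l he
    obtain ⟨D'', h1, h2⟩ := ih E q l he
    exact ⟨D'', .left _ _ _ _ _ _ h1, h2⟩
  | right D' o' w' t t₁' t₂' h ih =>
    intro E q l he
    obtain ⟨D'', h1, h2⟩ := ih E q l he
    exact ⟨D'', .right _ _ _ _ _ _ h1, h2⟩

theorem emb_join (W : Pm N Q L T O C) {t R : Rt N Q L T O C} (h : W.Emb t R) :
    ∀ D o w t₁ t₂, t = .join D o w t₁ t₂ → ∃ D' w' t₁' t₂', Rt.Sub (.join D' o w' t₁' t₂') R ∧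
      W.dle D D' ∧ List.SublistForall₂ W.sle w w' ∧ W.Emb t₁ t₁' ∧ W.Emb t₂ t₂' ∧
      W.dle t₁.dt t₁'.dt ∧ W.dle t₂.dt t₂'.dt := by
  induction h with
  | leaf D D' q l h =>
    intro E o w t₁ t₂ he
    cases he
  | join D D' o w w' t₁ t₂ t₁' t₂' hD hw h₁ h₂ hd₁ hd₂ ih₁ ih₂ =>
    intro E o' v s₁ s₂ he
    cases he
    exact ⟨D', w', t₁', t₂', .refl _, hD, hw, h₁, h₂, hd₁, hd₂⟩
  | left D' o' w' t t₁' t₂' h ih =>
    intro E o w s₁ s₂ he
    obtain ⟨D'', w'', r₁, r₂, h1, h2⟩ := ih E o w s₁ s₂ he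
    exact ⟨D'', w'', r₁, r₂, .left _ _ _ _ _ _ h1, h2⟩
  | right D' o' w' t t₁' t₂' h ih =>
    intro E o w s₁ s₂ he
    obtain ⟨D'', w'', r₁, r₂, h1, h2⟩ := ih E o w s₁ s₂ he
    exact ⟨D'', w'', r₁, r₂, .right _ _ _ _ _ _ h1, h2⟩

theorem pf_ED : Pool.Agent.H46.CH.T_ED := by
  intro N Q L T O C _ _ _ _ W
  exact ⟨fun t R h hR => ok_sub W h hR, fun D q l R h => emb_leaf W h D q l rfl,
    fun D o w t₁ t₂ R h => emb_join W h D o w t₁ t₂ rfl⟩

end Pool.Agent.H36.CHS
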