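import Pool.Agent.H46.CH.AT
import Pool.Agent.H8.MP.Per

/-!
# Eventually closed under adding a number is eventually periodic
-/

set_option autoImplicit false

namespace Pool.Agent.H36.CHS

theorem pf_EU : Pool.Agent.H46.CH.T_EU := by
  intro X m p hp h
  obtain ⟨P, N, hP, hN⟩ := Pool.Agent.H8.MP.ev_of_up X m p hp h
  exact ⟨N, P, hP, fun n hn => hN n hn⟩

end Pool.Agent.H36.CHS
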