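import Pool.Agent.H36.CHS.Num

/-!
# Silent extra elements on the left
-/

set_option autoImplicit false

namespace Pool.Agent.H36.CHS

open Classical Pool.Agent.H8.VR Pool.Agent.H69.VR Pool.Agent.H46.CH

theorem pf_J3 (hTR : T_TR) (hSS : T_SS) : Pool.Agent.H46.CH.T_J3 := by
  intro N Q L T O C _ _ _ _ _ W o a b a' b' e U hJ hU hb hsl
  obtain ⟨tr0, -, -, tr4, -⟩ := hTR N Q L T O C W
  intro X Y _ _ t u ht hu
  obtain ⟨E, hE0, hE1⟩ := hSS X _ t a U ht
  obtain ⟨h₀, I, t₀, u', c1, c2, c3, c4, c5, c6, c7, c8⟩ := hJ {x // x ∉ E} Y (fun x => t x.1) u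
    (fun σ => by rw [num_sub E (fun x => t x = σ)]; exact (hE0 σ).symm) hu
  have hI : ∀ τ, num (fun y => y ∈ I ∧ u y = τ) = b τ - b' τ := by
    intro τ
    rw [hu τ, c7 τ, num_add (P := fun y => u y = τ) I]
    omega
  have hI' : ∀ y ∈ I, b' (u y) < b (u y) := by
    intro y hy
    rw [hu (u y), c7 (u y), num_add (P := fun y' => u y' = u y) I]
    have h1 := num_pos (P := fun y' => y' ∈ I ∧ u y' = u y) (x := y) ⟨hy, rfl⟩
    omega
  -- the silent types
  obtain ⟨g, hg⟩ : ∃ g : Ix Q L T C → Ix Q L T C → T,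
      g = fun σ τ => W.sl (σ.1, σ.2.1) (o, true, τ.1, τ.2.1) := ⟨_, rfl⟩
  have hs : ∀ x ∈ E, ∀ y ∈ I, W.slt ((t x).1, (t x).2.1) (o, true, (u y).1, (u y).2.1)
      (g (t x) (u y)) := by
    intro x hx y hy
    have h1 : U (t x) ≠ 0 := by
      rw [← hE1]
      exact num_pos (x := x) ⟨hx, rfl⟩
    have h2 := hsl (t x) (u y) h1 (hI' y hy)
    rw [hg]
    show W.slt _ _ (W.sl _ _)
    unfold Pm.sl
    rw [dif_pos h2]
    exact h2.choose_spec
  obtain ⟨h, hh⟩ : ∃ h : X → Y → T, h = fun x y =>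
      if hx : x ∈ E then g (t x) (u y) else h₀ ⟨x, hx⟩ y := ⟨_, rfl⟩
  have hE : ∀ x ∈ E, ∀ y, h x y = g (t x) (u y) := by
    intro x hx y
    rw [hh]
    exact dif_pos hx
  have hN : ∀ (x : X) (hx : x ∉ E) (y : Y), h x y = h₀ ⟨x, hx⟩ y := by
    intro x hx y
    rw [hh]
    exact dif_neg hx
  obtain ⟨t', ht'⟩ : ∃ t' : X → Ix Q L T C, t' = fun x =>
      if hx : x ∈ E then t x else t₀ ⟨x, hx⟩ := ⟨_, rfl⟩
  have htE : ∀ x ∈ E, t' x = t x := by
    intro x hx
    rw [ht']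
    exact dif_pos hx
  have htN : ∀ (x : X) (hx : x ∉ E), t' x = t₀ ⟨x, hx⟩ := by
    intro x hx
    rw [ht']
    exact dif_neg hx
  refine ⟨h, I, t', u', ?_, ?_, c3, ?_, ?_, ?_, c7, c8⟩
  · intro x y hy
    by_cases hx : x ∈ E
    · rw [hE x hx]
      have h1 := (hs x hx y hy).1
      exact h1
    · rw [hN x hx]
      exact c1 ⟨x, hx⟩ y hy
  · intro x
    by_cases hx : x ∈ E
    · rw [htE x hx]
      exact ⟨rfl, rfl⟩
    · rw [htN x hx]
      exact c2 ⟨x, hx⟩
  · intro x z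
    by_cases hx : x ∈ E
    · have h1 : num (fun y => y ∈ I ∧ (u y).2.1 = z.1 ∧ h x y = z.2) =
          num (fun y => y ∈ I ∧ (fun τ : Ix Q L T C => τ.2.1 = z.1 ∧ g (t x) τ = z.2) (u y)) := by
        refine num_congr ?_
        intro y
        rw [hE x hx]
      obtain ⟨j, hj⟩ := num_dvd u (fun y => y ∈ I)
        (fun τ : Ix Q L T C => τ.2.1 = z.1 ∧ g (t x) τ = z.2) W.P
        (fun τ => by rw [hI]; exact hb τ)
      have h2 := tr4 (W.sat (t x).1 z) ((t x).2.2 z) 0 ((t x).2.2 z) j (tr0 _ _) (by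
        intro hj0
        obtain ⟨y, hy, hy1, hy2⟩ := num_ex (P := fun y => y ∈ I ∧
          (fun τ : Ix Q L T C => τ.2.1 = z.1 ∧ g (t x) τ = z.2) (u y)) (by
            rw [hj]
            exact Nat.mul_ne_zero W.pos.ne' hj0)
        have h3 := (hs x hx y hy).2.1
        have hz : z = ((u y).2.1, g (t x) (u y)) := Prod.ext hy1.symm hy2.symm
        rw [hz]
        exact h3)
      rw [Nat.zero_add] at h2
      rw [h1, hj, htE x hx]
      exact h2
    · have h1 : num (fun y => y ∈ I ∧ (u y).2.1 = z.1 ∧ h x y = z.2) =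
          num (fun y => y ∈ I ∧ (u y).2.1 = z.1 ∧ h₀ ⟨x, hx⟩ y = z.2) := by
        refine num_congr ?_
        intro y
        rw [hN x hx]
      rw [h1, htN x hx]
      exact c4 ⟨x, hx⟩ z
  · intro y hy z
    have h1 : num (fun x => (t x).2.1 = z.1 ∧ W.S.sw (h x y) = z.2) =
        num (fun x : {x // x ∉ E} => (t x.1).2.1 = z.1 ∧ W.S.sw (h₀ x y) = z.2) +
          num (fun x => x ∈ E ∧
            (fun σ : Ix Q L T C => σ.2.1 = z.1 ∧ W.S.sw (g σ (u y)) = z.2) (t x)) := by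
      rw [num_add (P := fun x => (t x).2.1 = z.1 ∧ W.S.sw (h x y) = z.2) E,
        ← num_sub E (fun x => (t x).2.1 = z.1 ∧ W.S.sw (h x y) = z.2)]
      congr 1
      · refine num_congr ?_
        intro x
        rw [hN x.1 x.2]
      · refine num_congr ?_
        intro x
        constructor
        · rintro ⟨hx, h2, h3⟩
          rw [hE x hx] at h3
          exact ⟨hx, h2, h3⟩
        · rintro ⟨hx, h2, h3⟩
          refine ⟨hx, h2, ?_⟩
          rw [hE x hx]
          exact h3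
    obtain ⟨j, hj⟩ := num_dvd t (fun x => x ∈ E)
      (fun σ : Ix Q L T C => σ.2.1 = z.1 ∧ W.S.sw (g σ (u y)) = z.2) W.P
      (fun σ => by rw [hE1]; exact hU σ)
    rw [h1, hj]
    refine tr4 _ _ _ _ j (c5 y hy z) ?_
    intro hj0
    obtain ⟨x, hx, hx1, hx2⟩ := num_ex (P := fun x => x ∈ E ∧
      (fun σ : Ix Q L T C => σ.2.1 = z.1 ∧ W.S.sw (g σ (u y)) = z.2) (t x)) (by
        rw [hj]
        exact Nat.mul_ne_zero W.pos.ne' hj0)
    have h3 := (hs x hx y hy).2.2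
    have hz : z = ((t x).2.1, W.S.sw (g (t x) (u y))) := Prod.ext hx1.symm hx2.symm
    rw [hz]
    exact h3
  · intro σ
    rw [num_add (P := fun x => t' x = σ) E, ← num_sub E (fun x => t' x = σ)]
    show a' σ + U σ = _
    rw [c6 σ, ← hE1 σ]
    congr 1
    · refine num_congr ?_
      intro x
      rw [htN x.1 x.2]
    · refine num_congr ?_
      intro x
      constructor
      · rintro ⟨hx, h2⟩
        rw [← htE x hx] at h2
        exact ⟨hx, h2⟩
      · rintro ⟨hx, h2⟩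
        rw [htE x hx] at h2
        exact ⟨hx, h2⟩

end Pool.Agent.H36.CHS
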