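import Pool.Agent.H46.CH.LT
import Pool.Agent.H33.JS.NU

/-!
# The lower bound, assembled
-/

set_option autoImplicit false

namespace Pool.Agent.H36.CHS

open Classical Pool.Agent.H46.CH
open Pool.Agent.H8.VR (C2)
open Pool.Agent.H8.JS (NTM Cfg Mv IsComp lang num)

theorem pf_LOW (hCC : T_CC) (hCD : T_CD) (hNPA : T_NPA) (hNPB : T_NPB) (hA1 : T_A1) (hA2 : T_A2)
    (hO1 : T_O1) (hO2 : T_O2) (hIR : T_IR) (hFBN : T_FBN) : T_LOW := by
  intro L hL
  obtain ⟨c, M, hM⟩ := hL
  obtain ⟨B, cd, hcode⟩ := hCD M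
  obtain ⟨d₂, hd₂⟩ := hA1 M c B cd hcode (fun x => (hM x).1)
  obtain ⟨hmono, hbig, hpol⟩ := hFBN
  obtain ⟨d, hd, hfd⟩ := hbig d₂
  obtain ⟨p, hp⟩ := hpol d
  obtain ⟨φ, hφ⟩ := hCC (Ct M.k d) (tmA M B cd d)
  refine ⟨φ, p, ?_⟩
  intro x
  have hpos : 0 < 2 * fB d (num x) := by
    unfold fB
    omega
  obtain ⟨y, hy⟩ := Pool.Agent.H33.JS.num_surj _ hpos
  refine ⟨y, ?_, ?_⟩
  · rw [hp, hy]
  · rw [(hM x).2]
    constructor
    · intro hacc
      obtain ⟨s₀, hs₀, hD⟩ := hd₂ d x hacc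
      have hle : s₀ ≤ fB d (num x) := hs₀.trans (hfd _)
      obtain ⟨v, s, hpath, hN, hs⟩ := hD (fB d (num x) - s₀)
      obtain ⟨v₁, hv₁⟩ : ∃ v₁ : Ct M.k d → ℕ, v₁ = fun j => match j with
        | .w _ => v .N
        | _ => 0 := ⟨_, rfl⟩
      have hrel : (tmA M B cd d).Rel (.begB : Ins M d) v v₁ := by
        refine ((hIR M B cd d v v₁).2.2.2.2.2.1).2 ?_
        intro j
        rw [hv₁]
        cases j <;> rfl
      have hv₁' : ∀ j, v₁ j = match j with
        | .w _ => num x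
        | _ => 0 := by
        intro j
        rw [hv₁]
        cases j with
        | w i => exact hN
        | _ => rfl
      obtain ⟨e, v₂, s₂, hne, hp2⟩ := hO2 M B cd d (num x) v₁ hv₁'
      have h2 := hO1 M B cd d (num x) v₁ v₂ e s₂ hv₁' hne hp2
      show num y ∈ specPB φ
      rw [hφ, hy]
      refine hNPB M B cd d _ ⟨v, v₁, v₂, e, s, s₂, hpath, hrel, hne, hp2, ?_, ?_⟩
      · omega
      · omega
    · intro hlang
      have h1 : num y ∈ (tmA M B cd d).Num := by
        rw [← hφ]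
        exact hlang
      rw [hy] at h1
      obtain ⟨v, v₁, v₂, e, s₁, s₂, hpath, hrel, hne, hp2, h3, h4⟩ := hNPA M B cd d _ h1
      obtain ⟨x', hacc, hN⟩ := hA2 M B cd d hcode v s₁ hpath
      have hv₁ := ((hIR M B cd d v v₁).2.2.2.2.2.1).1 hrel
      have hv₁' : ∀ j, v₁ j = match j with
        | .w _ => num x'
        | _ => 0 := by
        intro j
        rw [hv₁ j]
        cases j with
        | w i => exact hN
        | _ => rfl
      have h2 := hO1 M B cd d (num x') v₁ v₂ e s₂ hv₁' hne hp2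
      have h5 : fB d (num x) = fB d (num x') := by omega
      have h6 : x = x' := Pool.Agent.H33.JS.num_inj x x' ((hmono d hd).injective h5)
      rw [h6]
      exact hacc

end Pool.Agent.H36.CHS
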