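import Pool.Agent.H46.CH.AT

/-!
# Counting lemmas
-/

set_option autoImplicit false

namespace Pool.Agent.H36.CHS

open Classical Pool.Agent.H8.VR Pool.Agent.H69.VR Pool.Agent.H46.CH

section
variable {X ι : Type} [Fintype X]

theorem num_def (P : X → Prop) [DecidablePred P] : num P = (Finset.univ.filter P).card := by
  unfold num
  congr 1
  ext x
  simp

theorem num_congr {P P' : X → Prop} (h : ∀ x, P x ↔ P' x) : num P = num P' := by
  have : P = P' := funext (fun x => propext (h x))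
  rw [this]

theorem num_pos {P : X → Prop} {x : X} (h : P x) : num P ≠ 0 := by
  rw [num_def]
  exact (Finset.card_pos.2 ⟨x, Finset.mem_filter.2 ⟨Finset.mem_univ x, h⟩⟩).ne'

theorem num_ex {P : X → Prop} (h : num P ≠ 0) : ∃ x, P x := by
  rw [num_def] at h
  obtain ⟨x, hx⟩ := Finset.card_pos.1 (Nat.pos_of_ne_zero h)
  exact ⟨x, (Finset.mem_filter.1 hx).2⟩

theorem num_add {P : X → Prop} (E : Set X) :
    num P = num (fun x => x ∉ E ∧ P x) + num (fun x => x ∈ E ∧ P x) := by
  rw [num_def, num_def, num_def]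
  rw [← Finset.card_union_of_disjoint]
  · congr 1
    ext x
    rw [Finset.mem_union, Finset.mem_filter, Finset.mem_filter, Finset.mem_filter]
    constructor
    · rintro ⟨h1, h2⟩
      by_cases hx : x ∈ E
      · exact Or.inr ⟨h1, hx, h2⟩
      · exact Or.inl ⟨h1, hx, h2⟩
    · rintro (⟨h1, -, h2⟩ | ⟨h1, -, h2⟩)
      · exact ⟨h1, h2⟩
      · exact ⟨h1, h2⟩
  · rw [Finset.disjoint_left]
    intro x hx hx'
    exact (Finset.mem_filter.1 hx).2.1 (Finset.mem_filter.1 hx').2.1

theorem num_sub (E : Set X) [Fintype {x // x ∉ E}] (P : X → Prop) :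
    num (fun x : {x // x ∉ E} => P x.1) = num (fun x => x ∉ E ∧ P x) := by
  rw [num_def, num_def]
  refine Finset.card_bij (fun x _ => x.1) ?_ ?_ ?_
  · intro x hx
    exact Finset.mem_filter.2 ⟨Finset.mem_univ _, x.2, (Finset.mem_filter.1 hx).2⟩
  · intro x _ y _ h
    exact Subtype.ext h
  · intro x hx
    obtain ⟨-, h1, h2⟩ := Finset.mem_filter.1 hx
    exact ⟨⟨x, h1⟩, Finset.mem_filter.2 ⟨Finset.mem_univ _, h2⟩, rfl⟩

/-- counting by classes -/
theorem num_class [Fintype ι] (f : X → ι) (R : X → Prop) (Q : ι → Prop) :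
    num (fun x => R x ∧ Q (f x)) =
      ∑ τ ∈ Finset.univ.filter Q, num (fun x => R x ∧ f x = τ) := by
  rw [num_def]
  rw [Finset.card_eq_sum_card_fiberwise (f := f) (t := Finset.univ.filter Q)]
  · refine Finset.sum_congr rfl ?_
    intro τ hτ
    rw [num_def]
    congr 1
    ext x
    rw [Finset.mem_filter, Finset.mem_filter, Finset.mem_filter]
    constructor
    · rintro ⟨⟨h1, h2, -⟩, h3⟩
      exact ⟨h1, h2, h3⟩
    · rintro ⟨h1, h2, h3⟩
      refine ⟨⟨h1, h2, ?_⟩, h3⟩
      rw [h3]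
      exact (Finset.mem_filter.1 hτ).2
  · intro x hx
    have hx' := Finset.mem_filter.1 (Finset.mem_coe.1 hx)
    exact Finset.mem_coe.2 (Finset.mem_filter.2 ⟨Finset.mem_univ _, hx'.2.2⟩)

/-- the number of the elements of some classes is divisible by `P` if the numbers for all classes
are -/
theorem num_dvd [Fintype ι] (f : X → ι) (R : X → Prop) (Q : ι → Prop) (P : ℕ)
    (h : ∀ τ, P ∣ num (fun x => R x ∧ f x = τ)) : P ∣ num (fun x => R x ∧ Q (f x)) := by
  rw [num_class]
  exact Finset.dvd_sum (fun τ _ => h τ)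

end

end Pool.Agent.H36.CHS
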