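import Pool.Agent.H46.CH.LT

/-!
# The clock: size
-/

set_option autoImplicit false

namespace Pool.Agent.H36.CHS

open Classical Pool.Agent.H46.CH
open Pool.Agent.H8.VR (C2)
open Pool.Agent.H8.JS (NTM Cfg Mv IsComp lang num)

/-- the sum of the counters, if only the digits and their complements are different from `0` -/
theorem sum_ct {k d : ℕ} (v : Ct k d → ℕ)
    (h0 : ∀ j, (∀ l, j ≠ Ct.u l) → (∀ l, j ≠ Ct.w l) → v j = 0) :
    ∑ j, v j = ∑ l, v (.u l) + ∑ l, v (.w l) := by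
  have h1 : ∑ j, v j = ∑ j ∈ (Finset.univ : Finset (Fin d)).image Ct.u ∪
      (Finset.univ : Finset (Fin d)).image (Ct.w (k := k)), v j := by
    symm
    refine Finset.sum_subset (Finset.subset_univ _) ?_
    intro j _ hj
    refine h0 j ?_ ?_
    · rintro l rfl
      exact hj (Finset.mem_union_left _ (Finset.mem_image_of_mem _ (Finset.mem_univ l)))
    · rintro l rfl
      exact hj (Finset.mem_union_right _ (Finset.mem_image_of_mem _ (Finset.mem_univ l)))
  rw [h1, Finset.sum_union, Finset.sum_image, Finset.sum_image]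
  · intro a _ b _ h
    exact Ct.w.inj h
  · intro a _ b _ h
    exact Ct.u.inj h
  · rw [Finset.disjoint_left]
    intro j hj hj'
    obtain ⟨a, -, rfl⟩ := Finset.mem_image.1 hj
    obtain ⟨b, -, hb⟩ := Finset.mem_image.1 hj'
    cases hb

/-- all counters except the digits and their complements are `0` -/
structure Z0 {k d : ℕ} (v : Ct k d → ℕ) : Prop where
  lf : ∀ j, v (.lf j) = 0
  rt : ∀ j, v (.rt j) = 0
  N : v .N = 0
  P : v .P = 0
  Z : v .Z = 0
  D : v .D = 0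

theorem Z0.sum {k d : ℕ} {v : Ct k d → ℕ} (h : Z0 v) :
    ∑ j, v j = ∑ l, v (.u l) + ∑ l, v (.w l) := by
  refine sum_ct v ?_
  intro j h1 h2
  cases j with
  | lf j => exact h.lf j
  | rt j => exact h.rt j
  | N => exact h.N
  | P => exact h.P
  | Z => exact h.Z
  | D => exact h.D
  | u l => exact absurd rfl (h1 l)
  | w l => exact absurd rfl (h2 l)

/-- the full vectors -/
structure FV {k d : ℕ} (n : ℕ) (v : Ct k d → ℕ) : Prop where
  z : Z0 v
  uw : ∀ l, v (.u l) + v (.w l) = n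

theorem FV.sum {k d n : ℕ} {v : Ct k d → ℕ} (h : FV n v) : ∑ j, v j = d * n := by
  rw [h.z.sum, ← Finset.sum_add_distrib, Finset.sum_congr rfl (fun l _ => h.uw l)]
  rw [Finset.sum_const, Finset.card_univ, Fintype.card_fin, smul_eq_mul]

/-- the value of the clock -/
def vl {k d : ℕ} (n : ℕ) (v : Ct k d → ℕ) : ℕ := ∑ l : Fin d, v (.u l) * (n + 1) ^ (l : ℕ)

theorem geo (n m : ℕ) : ∑ l ∈ Finset.range m, n * (n + 1) ^ l + 1 = (n + 1) ^ m := by
  induction m with
  | zero => simp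
  | succ m ih =>
    rw [Finset.sum_range_succ, pow_succ, ← ih]
    ring

theorem geo_fin (n d : ℕ) : ∑ l : Fin d, n * (n + 1) ^ (l : ℕ) + 1 = (n + 1) ^ d := by
  rw [Fin.sum_univ_eq_sum_range (fun l => n * (n + 1) ^ l) d]
  exact geo n d

theorem geo_lt (n d : ℕ) (i : Fin d) :
    ∑ l : Fin d, (if l < i then n * (n + 1) ^ (l : ℕ) else 0) + 1 = (n + 1) ^ (i : ℕ) := by
  have h1 : ∑ l : Fin d, (if l < i then n * (n + 1) ^ (l : ℕ) else 0) =
      ∑ l : Fin d, (fun m : ℕ => if m < (i : ℕ) then n * (n + 1) ^ m else 0) (l : ℕ) := by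
    refine Finset.sum_congr rfl ?_
    intro l _
    rfl
  rw [h1, Fin.sum_univ_eq_sum_range (fun m : ℕ => if m < (i : ℕ) then n * (n + 1) ^ m else 0) d,
    ← Finset.sum_subset (Finset.range_subset_range.2 i.2.le)]
  · rw [Finset.sum_congr rfl (g := fun l => n * (n + 1) ^ l)]
    · exact geo n i
    · intro l hl
      rw [if_pos (Finset.mem_range.1 hl)]
  · intro l _ hl
    rw [if_neg (fun h => hl (Finset.mem_range.2 h))]

/-- the next value of the clock -/
theorem vl_next (n d : ℕ) (i : Fin d) (u : Fin d → ℕ) (hu : ∀ l, l < i → u l = n) :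
    ∑ l : Fin d, (if l < i then 0 else u l + dl (l = i)) * (n + 1) ^ (l : ℕ) =
      ∑ l : Fin d, u l * (n + 1) ^ (l : ℕ) + 1 := by
  have h1 : ∀ l : Fin d, (if l < i then 0 else u l + dl (l = i)) * (n + 1) ^ (l : ℕ) +
      (if l < i then n * (n + 1) ^ (l : ℕ) else 0) =
      u l * (n + 1) ^ (l : ℕ) + (if l = i then (n + 1) ^ (l : ℕ) else 0) := by
    intro l
    by_cases h : l < i
    · rw [if_pos h, if_pos h, if_neg (ne_of_lt h), hu l h]
      ring
    · rw [if_neg h, if_neg h]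
      by_cases h' : l = i
      · rw [if_pos h', dl, if_pos h']
        ring
      · rw [if_neg h', dl, if_neg h']
        ring
  have h2 := Finset.sum_congr (rfl : (Finset.univ : Finset (Fin d)) = Finset.univ)
    (fun l _ => h1 l)
  rw [Finset.sum_add_distrib, Finset.sum_add_distrib, Finset.sum_ite_eq' Finset.univ i,
    if_pos (Finset.mem_univ i)] at h2
  have h3 := geo_lt n d i
  omega

/-- the invariant -/
def Inv {M : NTM} {d : ℕ} (n : ℕ) (e : Ins M d) (v : Ct M.k d → ℕ) (s : ℕ) : Prop :=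
  match e with
  | .ipop _ => FV n v ∧ s = vl n v * (2 * (d * n) + 1)
  | .fpop => FV n v ∧ s = vl n v * (2 * (d * n) + 1)
  | .ipush i => ∃ v0 : Ct M.k d → ℕ, FV n v0 ∧
      s = vl n v0 * (2 * (d * n) + 1) + (1 + d * n) ∧ Z0 v ∧
      (∀ l, v0 (.w l) = v (.w l) + dl (l = i)) ∧ (∀ l, l < i → v (.w l) = 0) ∧
      ∀ l, v (.u l) = v0 (.u l)
  | .fpush => ∑ j, v j = d * n ∧ s = ((n + 1) ^ d - 1) * (2 * (d * n) + 1) + (1 + d * n)
  | _ => False

theorem inv_pop {M : NTM} {d : ℕ} {B : ℕ} {cd : TS M → ℕ} (hIS : T_IS) {n : ℕ} (i : Fin d)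
    (v₁ v₂ : Ct M.k d → ℕ) (s : ℕ) (h : Inv (M := M) n (.ipop i) v₁ s)
    (hr : (tmA M B cd d).Rel (.ipop i) v₁ v₂) :
    Inv (M := M) n (.ipush i) v₂ (s + (1 + ∑ j, v₁ j)) := by
  obtain ⟨hw, hZ, hu, hN, hP, hD, hl, hrt⟩ := ((hIS M B cd d v₁ v₂).2.2.1 i).1 hr
  obtain ⟨hF, hs⟩ := h
  have hZ0 : v₂ .Z = 0 ∧ (∑ l, if l < i then v₂ (.w l) else 0) = 0 := by
    have h1 := hF.z.Z
    omega
  refine ⟨v₁, hF, ?_, ?_, hw, ?_, fun l => (hu l).symm⟩
  · rw [hs, hF.sum]
  · exact ⟨fun j => by rw [← hl j]; exact hF.z.lf j, fun j => by rw [← hrt j]; exact hF.z.rt j,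
      by rw [← hN]; exact hF.z.N, by rw [← hP]; exact hF.z.P, hZ0.1,
      by rw [← hD]; exact hF.z.D⟩
  · intro l hli
    have h2 := (Finset.sum_eq_zero_iff.1 hZ0.2) l (Finset.mem_univ l)
    rw [if_pos hli] at h2
    exact h2

theorem inv_push {M : NTM} {d : ℕ} {B : ℕ} {cd : TS M → ℕ} (hIS : T_IS) {n : ℕ} (i : Fin d)
    (v₁ v₂ : Ct M.k d → ℕ) (s : ℕ) (h : Inv (M := M) n (.ipush i) v₁ s)
    (hr : (tmA M B cd d).Rel (.ipush i) v₁ v₂) :
    FV n v₂ ∧ s + (1 + ∑ j, v₁ j) = vl n v₂ * (2 * (d * n) + 1) := by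
  obtain ⟨hu, hw, hZ, hN, hP, hD, hl, hrt⟩ := ((hIS M B cd d v₁ v₂).2.2.2 i).1 hr
  obtain ⟨v0, hF, hs, hz, hw0, hlt, hu0⟩ := h
  have hwz : ∀ l, l < i → v0 (.w l) = 0 := by
    intro l hli
    rw [hw0 l, hlt l hli, dl, if_neg (ne_of_lt hli)]
  have hun : ∀ l, l < i → v0 (.u l) = n := by
    intro l hli
    have h1 := hF.uw l
    have h2 := hwz l hli
    omega
  have hF2 : FV n v₂ := by
    refine ⟨⟨fun j => by rw [hl j]; exact hz.lf j, fun j => by rw [hrt j]; exact hz.rt j,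
      by rw [hN]; exact hz.N, by rw [hP]; exact hz.P, by rw [hZ]; exact hz.Z,
      by rw [hD]; exact hz.D⟩, ?_⟩
    intro l
    rw [hu l, hw l, hu0 l]
    have h1 := hF.uw l
    have h2 := hw0 l
    by_cases h : l < i
    · rw [if_pos h, if_pos h, hlt l h, hun l h]
      omega
    · rw [if_neg h, if_neg h]
      omega
  refine ⟨hF2, ?_⟩
  have hval : vl n v₂ = vl n v0 + 1 := by
    unfold vl
    rw [← vl_next n d i (fun l => v0 (.u l)) hun]
    refine Finset.sum_congr rfl ?_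
    intro l _
    rw [hu l, hu0 l]
  have hsum : ∑ j, v₁ j + 1 = d * n := by
    have h1 := hF.sum
    rw [hF.z.sum, Finset.sum_congr rfl (fun l _ => hw0 l), Finset.sum_add_distrib] at h1
    have h2 : ∑ l : Fin d, dl (l = i) = 1 := by
      rw [Finset.sum_eq_single i]
      · exact if_pos rfl
      · intro l _ hl
        exact if_neg hl
      · intro h
        exact absurd (Finset.mem_univ i) h
    have h3 : ∑ l, v₁ (.u l) = ∑ l, v0 (.u l) := Finset.sum_congr rfl (fun l _ => hu0 l)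
    rw [hz.sum, h3]
    omega
  rw [hs, hval]
  have h4 : 1 + ∑ j, v₁ j = d * n := by omega
  rw [h4]
  ring

theorem inv_fpop {M : NTM} {d : ℕ} {B : ℕ} {cd : TS M → ℕ} (hIR : T_IR) {n : ℕ}
    (v₁ v₂ : Ct M.k d → ℕ) (s : ℕ) (h : Inv (M := M) n (.fpop) v₁ s)
    (hr : (tmA M B cd d).Rel (.fpop : Ins M d) v₁ v₂) :
    Inv (M := M) (d := d) n .fpush v₂ (s + (1 + ∑ j, v₁ j)) := by
  obtain ⟨hZ, ho⟩ := ((hIR M B cd d v₁ v₂).2.2.2.2.2.2.1).1 hr
  obtain ⟨hF, hs⟩ := h
  have hZ0 : v₂ .Z = 0 ∧ (∑ l, v₂ (.w l)) = 0 := by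
    have h1 := hF.z.Z
    omega
  have hw : ∀ l, v₁ (.w l) = 0 := by
    intro l
    rw [ho (.w l) (by intro h; cases h)]
    exact (Finset.sum_eq_zero_iff.1 hZ0.2) l (Finset.mem_univ l)
  have hu : ∀ l, v₁ (.u l) = n := by
    intro l
    have h1 := hF.uw l
    have h2 := hw l
    omega
  have he : v₂ = v₁ := by
    funext j
    by_cases hj : j = .Z
    · rw [hj, hZ0.1, hF.z.Z]
    · exact (ho j hj).symm
  refine ⟨?_, ?_⟩
  · rw [he]
    exact hF.sum
  · have hval : vl n v₁ = (n + 1) ^ d - 1 := by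
      unfold vl
      rw [Finset.sum_congr rfl (fun l _ => by rw [hu l])]
      have h1 := geo_fin n d
      omega
    rw [hs, hF.sum, hval]

theorem inv_step {M : NTM} {d : ℕ} {B : ℕ} {cd : TS M → ℕ} (hIR : T_IR) (hIS : T_IS) {n : ℕ}
    (e₁ e₂ : Ins M d) (v₁ v₂ : Ct M.k d → ℕ) (s : ℕ) (h : Inv n e₁ v₁ s)
    (hr : (tmA M B cd d).Rel e₁ v₁ v₂) (hn : Ins.nx e₁ e₂) :
    Inv n e₂ v₂ (s + (1 + ∑ j, v₁ j)) := by
  cases e₁ with
  | ipop i =>
    cases e₂ with
    | ipush i' =>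
      have hii : i = i' := hn
      subst hii
      exact inv_pop hIS i v₁ v₂ s h hr
    | _ => exact hn.elim
  | ipush i =>
    cases e₂ with
    | ipop i' => exact inv_push hIS i v₁ v₂ s h hr
    | fpop => exact inv_push hIS i v₁ v₂ s h hr
    | _ => exact hn.elim
  | fpop =>
    cases e₂ with
    | fpush => exact inv_fpop hIR v₁ v₂ s h hr
    | _ => exact hn.elim
  | fpush =>
    cases e₂ with
    | _ => exact hn.elim
  | _ => exact h.elim

theorem inv_path {M : NTM} {d : ℕ} {B : ℕ} {cd : TS M → ℕ} (hIR : T_IR) (hIS : T_IS) {n : ℕ}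
    {v : Ct M.k d → ℕ} (hv : ∀ j, v j = match j with
      | .w _ => n
      | _ => 0) {e : Ins M d} (hn : Ins.nx (.begB : Ins M d) e) (e' : (tmA M B cd d).I)
    (v' : Ct M.k d → ℕ) (s : ℕ) (h : (tmA M B cd d).Path e v e' v' s) : Inv n e' v' s := by
  induction h with
  | nil =>
    have hF : FV n v ∧ 0 = vl n v * (2 * (d * n) + 1) := by
      refine ⟨⟨⟨fun j => hv _, fun j => hv _, hv _, hv _, hv _, hv _⟩, fun l => ?_⟩, ?_⟩
      · rw [hv (.u l), hv (.w l)]
        exact Nat.zero_add n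
      · have h1 : vl n v = 0 := by
          unfold vl
          refine Finset.sum_eq_zero ?_
          intro l _
          rw [hv (.u l)]
          exact Nat.zero_mul _
        rw [h1, Nat.zero_mul]
    cases e with
    | ipop i => exact hF
    | fpop => exact hF
    | _ => exact hn.elim
  | snoc e₁ v₁ e₂ v₂ s h hr hnx ih => exact inv_step hIR hIS e₁ e₂ v₁ v₂ s ih hr hnx

theorem pf_O1 (hIR : T_IR) (hIS : T_IS) : T_O1 := by
  intro M B cd d n v v₂ e s hv hn h
  obtain ⟨h1, h2⟩ := inv_path hIR hIS hv hn .fpush v₂ s h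
  rw [h1, h2, fB]
  ring

end Pool.Agent.H36.CHS
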