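import Pool.Agent.H36.CHS.Tape

/-!
# One step of the Turing machine: forwards
-/

set_option autoImplicit false

namespace Pool.Agent.H36.CHS

open Classical Pool.Agent.H46.CH
open Pool.Agent.H8.VR (C2)
open Pool.Agent.H8.JS (NTM Cfg Mv IsComp lang num)

theorem pf_S1 (hCO : T_CO) (hIS : T_IS) : T_S1 := by
  intro M B cd d n hc c c' v hv hstep
  obtain ⟨a', dd, hδ, hchd, hctp⟩ := hstep
  obtain ⟨hlf, hrt, hN, hP, hZ, hD, hu, hw⟩ := hv
  have hC2 := (hCO M B cd hc).2.1
  have hB : 1 ≤ B := by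
    have := hc.lt .bl
    omega
  -- the right parts after the symbol
  have hr : ∀ j, ∃ r₁, v (.rt j) = cd (c.tp j (c.hd j)) + B * r₁ ∧
      Cod B cd (fun i => c.tp j (c.hd j + (i + 1))) r₁ := fun j => (hC2 _ _).1 (hrt j)
  choose r₁ hr₁ hr₁' using hr
  -- the symbols to the left
  obtain ⟨o, hodef⟩ : ∃ o : Fin (M.k + 1) → Option (TS M), o = fun j =>
    if dd j = .L ∧ 0 < c.hd j then some (c.tp j (c.hd j - 1)) else none := ⟨_, rfl⟩
  obtain ⟨τ, hτ⟩ : ∃ τ : Tr M, τ = (c.q, (fun j => c.tp j (c.hd j)), c'.q, a', dd, o) := ⟨_, rfl⟩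
  obtain ⟨l₁, hl₁⟩ : ∃ l₁ : Fin (M.k + 1) → ℕ, l₁ = fun j =>
    if dd j = .L then Lv cd B (c.tp j) (c.hd j - 1) else Lv cd B (c.tp j) (c.hd j) := ⟨_, rfl⟩
  have hlfL : ∀ j, v (.lf j) = Lv cd B (c.tp j) (c.hd j) := hlf
  have hoL : ∀ j, o j ≠ none → dd j = .L := by
    intro j hj
    by_contra h
    refine hj ?_
    rw [hodef]
    exact if_neg (fun h' => h h'.1)
  -- the left parts after the symbol
  have hl2 : ∀ j, v (.lf j) = match o j with
      | some t => cd t + 1 + B * l₁ j
      | none => l₁ j := by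
    intro j
    by_cases h : dd j = .L ∧ 0 < c.hd j
    · have h1 : o j = some (c.tp j (c.hd j - 1)) := by
        rw [hodef]
        exact if_pos h
      have h2 : l₁ j = Lv cd B (c.tp j) (c.hd j - 1) := by
        rw [hl₁]
        exact if_pos h.1
      rw [h1, hlfL j]
      show Lv cd B (c.tp j) (c.hd j) = cd (c.tp j (c.hd j - 1)) + 1 + B * l₁ j
      rw [h2, ← Lv_succ]
      congr 1
      omega
    · have h1 : o j = none := by
        rw [hodef]
        exact if_neg h
      rw [h1, hlfL j]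
      show Lv cd B (c.tp j) (c.hd j) = l₁ j
      rw [hl₁]
      by_cases h2 : dd j = .L
      · have h3 : c.hd j = 0 := by
          by_contra h3
          exact h ⟨h2, Nat.pos_of_ne_zero h3⟩
        show _ = if dd j = .L then _ else _
        rw [if_pos h2, h3]
      · show _ = if dd j = .L then _ else _
        rw [if_neg h2]
  have h6 : ∀ j, dd j = .L → o j = none → l₁ j = 0 := by
    intro j h1 h2
    have h3 : c.hd j = 0 := by
      by_contra h3
      have h4 : o j = some (c.tp j (c.hd j - 1)) := by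
        rw [hodef]
        exact if_pos ⟨h1, Nat.pos_of_ne_zero h3⟩
      rw [h2] at h4
      cases h4
    rw [hl₁]
    show (if dd j = .L then _ else _) = 0
    rw [if_pos h1, h3]
    exact Lv_zero cd B _
  obtain ⟨v₁, hv₁⟩ : ∃ v₁ : Ct M.k d → ℕ, v₁ = fun x => match x with
    | .lf j => l₁ j
    | .rt j => r₁ j
    | x => v x := ⟨_, rfl⟩
  obtain ⟨v', hv'⟩ : ∃ v' : Ct M.k d → ℕ, v' = fun x => match x with
    | .lf j => if dd j = .R then cd (a' j) + 1 + B * l₁ j else l₁ j
    | .rt j => if dd j = .R then r₁ j else match o j with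
      | some t => cd t + B * cd (a' j) + B * B * r₁ j
      | none => cd (a' j) + B * r₁ j
    | x => v x := ⟨_, rfl⟩
  have e1 : ∀ j, v₁ (.lf j) = l₁ j := fun j => by rw [hv₁]
  have e2 : ∀ j, v₁ (.rt j) = r₁ j := fun j => by rw [hv₁]
  have e3 : ∀ j, v' (.lf j) = if dd j = .R then cd (a' j) + 1 + B * l₁ j else l₁ j :=
    fun j => by rw [hv']
  have e4 : ∀ j, v' (.rt j) = if dd j = .R then r₁ j else match o j with
      | some t => cd t + B * cd (a' j) + B * B * r₁ j
      | none => cd (a' j) + B * r₁ j := fun j => by rw [hv']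
  have ht := fun j => tape hCO hc (hlf j) (hrt j) (hr₁ j) (hl2 j) (e3 j) (e4 j) (hoL j) (h6 j)
    (hctp j) (hchd j)
  have hsum : (∑ j, if dd j = .L ∧ o j = none then v₁ (.lf j) else 0) = 0 := by
    refine Finset.sum_eq_zero ?_
    intro j _
    by_cases h : dd j = .L ∧ o j = none
    · rw [if_pos h, e1, h6 j h.1 h.2]
    · rw [if_neg h]
  refine ⟨τ, v₁, v', ?_, by rw [hτ], by rw [hτ], ?_, ?_, ?_, ?_⟩
  · rw [hτ]
    exact ⟨hδ, hoL⟩
  · refine ((hIS M B cd d v v₁).1 τ).2 ?_
    rw [hτ]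
    refine ⟨fun j => ?_, fun j => ?_, ?_, ?_, ?_, ?_, ?_, ?_⟩
    · rw [e2]
      exact hr₁ j
    · rw [e1]
      exact hl2 j
    · show v .Z = v₁ .Z + (∑ j, if dd j = .L ∧ o j = none then v₁ (.lf j) else 0)
      rw [hsum, hv₁]
      rfl
    · rw [hv₁]
    · rw [hv₁]
    · rw [hv₁]
    · intro i
      rw [hv₁]
    · intro i
      rw [hv₁]
  · refine ((hIS M B cd d v₁ v').2.1 τ).2 ?_
    rw [hτ]
    refine ⟨fun j => ?_, fun j => ?_, ?_, ?_, ?_, ?_, ?_, ?_⟩
    · rw [e1]
      exact e3 j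
    · rw [e2]
      exact e4 j
    · rw [hv₁, hv']
    · rw [hv₁, hv']
    · rw [hv₁, hv']
    · rw [hv₁, hv']
    · intro i
      rw [hv₁, hv']
    · intro i
      rw [hv₁, hv']
  · refine ⟨fun j => (ht j).2.1, fun j => (ht j).2.2, ?_, ?_, ?_, ?_, ?_, ?_⟩
    · rw [hv']
      exact hN
    · rw [hv']
      exact hP
    · rw [hv']
      exact hZ
    · rw [hv']
      exact hD
    · intro i
      rw [hv']
      exact hu i
    · intro i
      rw [hv']
      exact hw i
  · intro x
    rw [hv₁]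
    cases x with
    | lf j =>
      show l₁ j ≤ v (.lf j)
      have h := hl2 j
      cases ho : o j with
      | none =>
        rw [ho] at h
        exact h.ge
      | some t =>
        rw [ho] at h
        have h7 : v (.lf j) = cd t + 1 + B * l₁ j := h
        have h8 : 1 * l₁ j ≤ B * l₁ j := Nat.mul_le_mul_right _ hB
        omega
    | rt j =>
      show r₁ j ≤ v (.rt j)
      have h := hr₁ j
      have h8 : 1 * r₁ j ≤ B * r₁ j := Nat.mul_le_mul_right _ hB
      omega
    | _ => exact le_rfl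

end Pool.Agent.H36.CHS
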