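import Pool.Agent.H36.CHS.Tape

/-!
# One step of the Turing machine: backwards
-/

set_option autoImplicit false

namespace Pool.Agent.H36.CHS

open Classical Pool.Agent.H46.CH
open Pool.Agent.H8.VR (C2)
open Pool.Agent.H8.JS (NTM Cfg Mv IsComp lang num)

theorem pf_S2 (hCO : T_CO) (hIS : T_IS) : T_S2 := by
  intro M B cd d n hc c v v₁ v' τ hv hok hq hpop hpush
  obtain ⟨hδ, ho⟩ := hok
  obtain ⟨hlf, hrt, hN, hP, hZ, hD, hu, hw⟩ := hv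
  obtain ⟨p1, p2, p3, p4, p5, p6, p7, p8⟩ := ((hIS M B cd d v v₁).1 τ).1 hpop
  obtain ⟨q1, q2, q3, q4, q5, q6, q7, q8⟩ := ((hIS M B cd d v₁ v').2.1 τ).1 hpush
  have hZ0 : v₁ .Z = 0 ∧
      (∑ j, if τ.2.2.2.2.1 j = .L ∧ τ.2.2.2.2.2 j = none then v₁ (.lf j) else 0) = 0 := by
    omega
  have h6 : ∀ j, τ.2.2.2.2.1 j = .L → τ.2.2.2.2.2 j = none → v₁ (.lf j) = 0 := by
    intro j hj1 hj2
    have h := Finset.sum_eq_zero_iff.1 hZ0.2 j (Finset.mem_univ j)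
    rw [if_pos ⟨hj1, hj2⟩] at h
    exact h
  obtain ⟨c', hc'⟩ : ∃ c' : Cfg M, c' = ⟨τ.2.2.1, fun j => (τ.2.2.2.2.1 j).go (c.hd j),
    fun j p => if p = c.hd j then τ.2.2.2.1 j else c.tp j p⟩ := ⟨_, rfl⟩
  have hcq : c'.q = τ.2.2.1 := by rw [hc']
  have hchd : ∀ j, c'.hd j = (τ.2.2.2.2.1 j).go (c.hd j) := by
    intro j
    rw [hc']
  have hctp : ∀ j p, c'.tp j p = if p = c.hd j then τ.2.2.2.1 j else c.tp j p := by
    intro j p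
    rw [hc']
  have ht := fun j => tape hCO hc (hlf j) (hrt j) (p1 j) (p2 j) (q1 j) (q2 j) (ho j) (h6 j)
    (hctp j) (hchd j)
  refine ⟨c', ⟨τ.2.2.2.1, τ.2.2.2.2.1, ?_, hchd, hctp⟩, hcq, fun j => (ht j).2.1,
    fun j => (ht j).2.2, ?_, ?_, ?_, ?_, ?_, ?_⟩
  · have h7 : (fun j => c.tp j (c.hd j)) = τ.2.1 := funext (fun j => (ht j).1)
    rw [h7, hcq, ← hq]
    exact hδ
  · rw [q4, ← p4, hN]
  · rw [q5, ← p5, hP]
  · rw [q3, hZ0.1]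
  · rw [q6, ← p6, hD]
  · intro i
    rw [q7, ← p7, hu]
  · intro i
    rw [q8, ← p8, hw]

end Pool.Agent.H36.CHS
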