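import Pool.Agent.H46.CH.LT

/-!
# One step on one tape
-/

set_option autoImplicit false

namespace Pool.Agent.H36.CHS

open Classical Pool.Agent.H46.CH
open Pool.Agent.H8.VR (C2)
open Pool.Agent.H8.JS (NTM Cfg Mv IsComp lang num)

variable {M : NTM}

/-- the value of the left part of a tape -/
def Lv (cd : TS M → ℕ) (B : ℕ) (f : ℕ → TS M) (p : ℕ) : ℕ :=
  ∑ i ∈ Finset.range p, (cd (f (p - 1 - i)) + 1) * B ^ i

theorem Lv_zero (cd : TS M → ℕ) (B : ℕ) (f : ℕ → TS M) : Lv cd B f 0 = 0 := by
  unfold Lv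
  rw [Finset.sum_range_zero]

theorem Lv_succ (cd : TS M → ℕ) (B : ℕ) (f : ℕ → TS M) (p : ℕ) :
    Lv cd B f (p + 1) = cd (f p) + 1 + B * Lv cd B f p := by
  unfold Lv
  rw [Finset.sum_range_succ', Finset.mul_sum, add_comm]
  have h1 : (cd (f (p + 1 - 1 - 0)) + 1) * B ^ 0 = cd (f p) + 1 := by
    rw [pow_zero, mul_one]
    rfl
  rw [h1]
  congr 1
  refine Finset.sum_congr rfl ?_
  intro i _
  rw [show p + 1 - 1 - (i + 1) = p - 1 - i by omega]
  ring

theorem Lv_congr (cd : TS M → ℕ) (B : ℕ) (f g : ℕ → TS M) (p : ℕ) (h : ∀ q < p, f q = g q) :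
    Lv cd B f p = Lv cd B g p := by
  unfold Lv
  refine Finset.sum_congr rfl ?_
  intro i hi
  have h1 := Finset.mem_range.1 hi
  rw [h (p - 1 - i) (by omega)]

/-- one step on one tape -/
theorem tape (hCO : T_CO) {B : ℕ} {cd : TS M → ℕ} (hc : Code M B cd) {f f' : ℕ → TS M}
    {p p' : ℕ} {a a' : TS M} {d : Mv} {o : Option (TS M)} {l r l₁ r₁ l' r' : ℕ}
    (hl : l = Lv cd B f p) (hr : Cod B cd (fun i => f (p + i)) r)
    (h1 : r = cd a + B * r₁)
    (h2 : l = match o with
      | some t => cd t + 1 + B * l₁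
      | none => l₁)
    (h3 : l' = if d = .R then cd a' + 1 + B * l₁ else l₁)
    (h4 : r' = if d = .R then r₁ else match (generalizing := false) o with
      | some t => cd t + B * cd a' + B * B * r₁
      | none => cd a' + B * r₁)
    (h5 : o ≠ none → d = .L) (h6 : d = .L → o = none → l₁ = 0)
    (hf' : ∀ q, f' q = if q = p then a' else f q) (hp' : p' = d.go p) :
    f p = a ∧ l' = Lv cd B f' p' ∧ Cod B cd (fun i => f' (p' + i)) r' := by
  obtain ⟨-, hC2, hC3, hC4⟩ := hCO M B cd hc
  obtain ⟨r₂, hr₂, hcod⟩ := (hC2 _ _).1 hr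
  obtain ⟨ha, hrr⟩ := hC3 _ _ _ _ (h1.symm.trans hr₂)
  have ha' : a = f p := ha
  have hcod1 : Cod B cd (fun i => f (p + (i + 1))) r₁ := by
    rw [hrr]
    exact hcod
  have hfp : f' p = a' := by
    rw [hf', if_pos rfl]
  have hfn : ∀ q, q ≠ p → f' q = f q := fun q hq => by rw [hf', if_neg hq]
  have hLp : Lv cd B f' p = Lv cd B f p :=
    Lv_congr cd B f' f p (fun q hq => hfn q (ne_of_lt hq))
  -- the right part which starts with the new symbol
  have hmid : Cod B cd (fun i => f' (p + i)) (cd a' + B * r₁) := by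
    refine (hC2 _ _).2 ⟨r₁, ?_, ?_⟩
    · show cd a' + B * r₁ = cd (f' p) + B * r₁
      rw [hfp]
    · have h7 : (fun i => f' (p + (i + 1))) = fun i => f (p + (i + 1)) := by
        funext i
        exact hfn _ (by omega)
      rw [h7]
      exact hcod1
  refine ⟨ha'.symm, ?_⟩
  cases d with
  | R =>
    have ho : o = none := by
      by_contra ho
      cases h5 ho
    subst ho
    rw [if_pos rfl] at h3 h4
    have h2' : l = l₁ := h2
    have hp2 : p' = p + 1 := hp'
    refine ⟨?_, ?_⟩
    · rw [hp2, Lv_succ, hfp, hLp, h3, ← h2', hl]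
    · rw [h4, hp2]
      have h7 : (fun i => f' (p + 1 + i)) = fun i => f (p + (i + 1)) := by
        funext i
        rw [hfn _ (by omega)]
        congr 1
        omega
      rw [h7]
      exact hcod1
  | S =>
    have ho : o = none := by
      by_contra ho
      cases h5 ho
    subst ho
    rw [if_neg (by intro h; cases h)] at h3 h4
    have h2' : l = l₁ := h2
    have h4' : r' = cd a' + B * r₁ := h4
    have hp2 : p' = p := hp'
    refine ⟨?_, ?_⟩
    · rw [hp2, hLp, h3, ← h2', hl]
    · rw [h4', hp2]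
      exact hmid
  | L =>
    rw [if_neg (by intro h; cases h)] at h3 h4
    cases o with
    | none =>
      have h2' : l = l₁ := h2
      have h4' : r' = cd a' + B * r₁ := h4
      have hl0 : l₁ = 0 := h6 rfl rfl
      have hp0 : p = 0 := by
        rcases Nat.eq_zero_or_pos p with h | h
        · exact h
        · obtain ⟨q, rfl⟩ : ∃ q, p = q + 1 := ⟨p - 1, by omega⟩
          rw [Lv_succ] at hl
          omega
      have hp2 : p' = p := by
        rw [hp', hp0]
        rfl
      refine ⟨?_, ?_⟩
      · rw [hp2, hLp, h3, ← h2', hl]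
      · rw [h4', hp2]
        exact hmid
    | some t =>
      have h2' : l = cd t + 1 + B * l₁ := h2
      have h4' : r' = cd t + B * cd a' + B * B * r₁ := h4
      obtain ⟨q, rfl⟩ : ∃ q, p = q + 1 := by
        rcases Nat.eq_zero_or_pos p with h | h
        · rw [h, Lv_zero] at hl
          omega
        · exact ⟨p - 1, by omega⟩
      rw [Lv_succ] at hl
      obtain ⟨ht, hll⟩ := hC4 _ _ _ _ (h2'.symm.trans hl)
      have hp2 : p' = q := hp'
      have hfq : f' q = f q := hfn q (by omega)
      refine ⟨?_, ?_⟩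
      · rw [hp2, h3, hll]
        exact (Lv_congr cd B f' f q (fun i hi => hfn i (by omega))).symm
      · rw [hp2]
        refine (hC2 _ _).2 ⟨cd a' + B * r₁, ?_, ?_⟩
        · show r' = cd (f' q) + B * (cd a' + B * r₁)
          rw [h4', hfq, ht]
          ring
        · have h7 : (fun i => f' (q + (i + 1))) = fun i => f' (q + 1 + i) := by
            funext i
            congr 1
            omega
          rw [h7]
          exact hmid

end Pool.Agent.H36.CHS
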